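import Pool.Agent.Y774.ST.Stm

/-!
# The walk on stairs does not diverge if `a t ≥ 5 √t`
-/

set_option autoImplicit false

namespace Pool.Agent.Y562.ST

open MeasureTheory ProbabilityTheory Filter Topology
open Pool.Agent.Results.MP_1da119_pr.StairsDivergence
open Pool.Agent.H528R3.Stairs (A B T T_eq T_mono T_const A_nonneg A_le B_nonneg B_le)
open Pool.Agent.Y774.ST

/-- bounds of the acceptance probabilities -/
theorem AB_bounds (m : ℕ) (hm : 1 ≤ m) :
    1 / ((m : ℝ) + 3) ≤ B m - A m ∧ A m + B m ≤ 1 + 1 / (m : ℝ) := by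
  have hm' : (1 : ℝ) ≤ m := by exact_mod_cast hm
  rcases Nat.even_or_odd m with h | h
  · obtain ⟨n, hn⟩ := h
    have hn2 : m / 2 = n := by omega
    have hne : m ≠ 0 := by omega
    have hev : Even m := ⟨n, hn⟩
    have hA : A m = 1 / 2 := by
      unfold A
      rw [if_pos hev]
    have hB : B m = ((n : ℝ) + 1) ^ 2 / (((n : ℝ) + 1) ^ 2 + (n : ℝ) ^ 2) := by
      unfold B
      rw [if_neg hne, if_pos hev, hn2]
      push_cast
      rfl
    have hmn : (m : ℝ) = 2 * n := by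
      rw [hn]
      push_cast
      ring
    have hn1 : (1 : ℝ) ≤ n := by
      have : 1 ≤ n := by omega
      exact_mod_cast this
    have hpos : 0 < ((n : ℝ) + 1) ^ 2 + (n : ℝ) ^ 2 := by positivity
    have e : B m - A m = (2 * (n : ℝ) + 1) / (2 * (((n : ℝ) + 1) ^ 2 + (n : ℝ) ^ 2)) := by
      rw [hA, hB]
      field_simp
      ring
    constructor
    · rw [e, hmn, div_le_div_iff₀ (by positivity) (by positivity)]
      nlinarith
    · have e2 : A m + B m = 1 + (B m - A m) := by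
        rw [hA]
        ring
      rw [e2, e, hmn]
      have : (2 * (n : ℝ) + 1) / (2 * (((n : ℝ) + 1) ^ 2 + (n : ℝ) ^ 2)) ≤ 1 / (2 * (n : ℝ)) := by
        rw [div_le_div_iff₀ (by positivity) (by positivity)]
        nlinarith
      linarith
  · obtain ⟨n, hn⟩ := h
    have hn2 : m / 2 = n := by omega
    have hne : m ≠ 0 := by omega
    have hev : ¬ Even m := by
      rw [Nat.not_even_iff_odd]
      exact ⟨n, hn⟩
    have hA : A m = ((n : ℝ) + 1) ^ 2 / (((n : ℝ) + 1) ^ 2 + ((n : ℝ) + 2) ^ 2) := by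
      unfold A
      rw [if_neg hev, hn2]
      push_cast
      rfl
    have hB : B m = 1 / 2 := by
      unfold B
      rw [if_neg hne, if_neg hev]
    have hmn : (m : ℝ) = 2 * n + 1 := by
      rw [hn]
      push_cast
      ring
    have hn0 : (0 : ℝ) ≤ n := Nat.cast_nonneg n
    have hpos : 0 < ((n : ℝ) + 1) ^ 2 + ((n : ℝ) + 2) ^ 2 := by positivity
    have e : B m - A m = (2 * (n : ℝ) + 3) / (2 * (((n : ℝ) + 1) ^ 2 + ((n : ℝ) + 2) ^ 2)) := by
      rw [hA, hB]
      field_simp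
      ring
    constructor
    · rw [e, hmn, div_le_div_iff₀ (by positivity) (by positivity)]
      nlinarith
    · have h1 : A m ≤ 1 / 2 := by
        rw [hA, div_le_div_iff₀ (by positivity) (by positivity)]
        nlinarith
      have h2 : 0 ≤ 1 / (m : ℝ) := by positivity
      rw [hB]
      linarith

theorem ineq_core {m τ : ℝ} (hm : 1 ≤ m) (hτ : 64 ≤ τ) (hc : m ≤ 15 ∨ 16 ≤ m) :
    1 / (40 * τ) + m / (20 * τ ^ 2) ≤
      m / (2 * τ ^ 2) + 1 / (2 * (m + 3)) - 4 / (5 * τ) * (1 + 1 / m) := by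
  have hτ0 : 0 < τ := by linarith
  have hm0 : 0 < m := by linarith
  rcases hc with hc | hc
  · have h1 : 1 / 36 ≤ 1 / (2 * (m + 3)) := by
      apply one_div_le_one_div_of_le (by positivity)
      linarith
    have h2 : 4 / (5 * τ) * (1 + 1 / m) ≤ 8 / (5 * τ) := by
      have h3 : 1 / m ≤ 1 := by
        rw [div_le_one hm0]
        exact hm
      have h4 : 4 / (5 * τ) * (1 + 1 / m) ≤ 4 / (5 * τ) * 2 :=
        mul_le_mul_of_nonneg_left (by linarith) (by positivity)
      refine h4.trans (le_of_eq ?_)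
      ring
    have h5 : 8 / (5 * τ) + 1 / (40 * τ) ≤ 1 / 36 := by
      have : 8 / (5 * τ) + 1 / (40 * τ) = (65 / 40) / τ := by
        field_simp
        ring
      rw [this, div_le_iff₀ hτ0]
      linarith
    have h6 : m / (20 * τ ^ 2) ≤ m / (2 * τ ^ 2) := by
      apply div_le_div_of_nonneg_left hm0.le (by positivity)
      nlinarith [sq_nonneg τ]
    linarith
  · have h1 : 94 / (100 * τ) ≤ 9 / 20 * (m + 3) / τ ^ 2 + 1 / (2 * (m + 3)) := by
      have h2 : 9 / 20 * (m + 3) / τ ^ 2 + 1 / (2 * (m + 3)) - 94 / (100 * τ) =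
          (9 / 20 * (m + 3) ^ 2 + 1 / 2 * τ ^ 2 - 94 / 100 * τ * (m + 3)) /
            (τ ^ 2 * (m + 3)) := by
        field_simp
      have h3 : 0 ≤ 9 / 20 * (m + 3) ^ 2 + 1 / 2 * τ ^ 2 - 94 / 100 * τ * (m + 3) := by
        nlinarith [sq_nonneg ((m + 3) - 94 / 90 * τ), sq_nonneg τ]
      have h4 : 0 ≤ (9 / 20 * (m + 3) ^ 2 + 1 / 2 * τ ^ 2 - 94 / 100 * τ * (m + 3)) /
            (τ ^ 2 * (m + 3)) := by positivity
      linarith
    have h5 : 4 / (5 * τ) * (1 + 1 / m) ≤ 4 / (5 * τ) * (17 / 16) := by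
      apply mul_le_mul_of_nonneg_left _ (by positivity)
      have : 1 / m ≤ 1 / 16 := one_div_le_one_div_of_le (by norm_num) hc
      linarith
    have h6 : 27 / (20 * τ ^ 2) ≤ 65 / (1000 * τ) := by
      rw [div_le_div_iff₀ (by positivity) (by positivity)]
      nlinarith
    have h7 : 9 / 20 * (m + 3) / τ ^ 2 = m / (2 * τ ^ 2) - m / (20 * τ ^ 2) + 27 / (20 * τ ^ 2) := by
      field_simp
      ring
    have h8 : 94 / (100 * τ) = 4 / (5 * τ) * (17 / 16) + 1 / (40 * τ) + 65 / (1000 * τ) := by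
      field_simp
      norm_num
    linarith

/-- the test functions -/
noncomputable def G (t m : ℕ) : ℝ := if m = 0 then 0 else 1 + (min m t : ℕ) / √(t : ℝ)

theorem G_nonneg (t m : ℕ) : 0 ≤ G t m := by
  unfold G
  split_ifs
  · exact le_rfl
  · positivity

theorem G_ge (t m : ℕ) (hm : 0 < m) : 1 ≤ G t m := by
  unfold G
  rw [if_neg (by omega)]
  have : 0 ≤ ((min m t : ℕ) : ℝ) / √(t : ℝ) := by positivity
  linarith

theorem G_le (t m : ℕ) : G t m ≤ 1 + t / √(t : ℝ) := by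
  unfold G
  split_ifs
  · positivity
  · have h1 : ((min m t : ℕ) : ℝ) ≤ t := by exact_mod_cast min_le_right m t
    have h2 : ((min m t : ℕ) : ℝ) / √(t : ℝ) ≤ t / √(t : ℝ) :=
      div_le_div_of_nonneg_right h1 (Real.sqrt_nonneg _)
    linarith

theorem G_eq (t m : ℕ) (hm : 0 < m) (hmt : m ≤ t) : G t m = 1 + m / √(t : ℝ) := by
  unfold G
  rw [if_neg (by omega), min_eq_left hmt]

theorem claim (t m : ℕ) (b : ℝ) (ht : 4095 ≤ t) (hm : 1 ≤ m) (hmt : m ≤ t) (hb0 : 0 ≤ b)
    (hb2 : b ≤ 1 / 2) (hb : b ≤ 4 / (5 * √((t + 1 : ℕ) : ℝ))) :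
    T b (G (t + 1)) m ≤ (1 - 1 / (40 * ((t : ℝ) + 1))) * G t m := by
  have hm' : (1 : ℝ) ≤ m := by exact_mod_cast hm
  have ht' : (4095 : ℝ) ≤ t := by exact_mod_cast ht
  set τ : ℝ := √((t + 1 : ℕ) : ℝ) with hτ
  set σ : ℝ := √(t : ℝ) with hσ
  have hτ2 : τ ^ 2 = t + 1 := by
    rw [hτ, Real.sq_sqrt (by positivity)]
    push_cast
    rfl
  have hσ2 : σ ^ 2 = t := Real.sq_sqrt (by positivity)
  have hτ0 : 0 ≤ τ := Real.sqrt_nonneg _
  have hσ0 : 0 ≤ σ := Real.sqrt_nonneg _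
  have hτ64 : 64 ≤ τ := by
    by_contra hc
    push Not at hc
    nlinarith
  have hσpos : 0 < σ := by
    rcases eq_or_lt_of_le hσ0 with h | h
    · rw [← h] at hσ2
      norm_num at hσ2
      linarith
    · exact h
  have hσl : σ ≤ τ := by
    by_contra hc
    push Not at hc
    nlinarith
  have hσh : τ / 2 ≤ σ := by
    by_contra hc
    push Not at hc
    nlinarith
  have hτpos : 0 < τ := by linarith
  obtain ⟨hAB1, hAB2⟩ := AB_bounds m hm
  -- the values
  have g1 : G (t + 1) (m + 1) = 1 + ((m : ℝ) + 1) / τ := by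
    rw [G_eq (t + 1) (m + 1) (by omega) (by omega)]
    push_cast
    rw [hτ]
    push_cast
    rfl
  have g2 : G (t + 1) m = 1 + (m : ℝ) / τ := G_eq (t + 1) m (by omega) (by omega)
  have g3 : G (t + 1) (m - 1) ≤ 1 + ((m : ℝ) - 1) / τ := by
    rcases Nat.eq_or_lt_of_le hm with h | h
    · subst h
      simp [G]
    · rw [G_eq (t + 1) (m - 1) (by omega) (by omega)]
      rw [Nat.cast_sub hm, ← hτ]
      push_cast
      exact le_rfl
  have g4 : G t m = 1 + (m : ℝ) / σ := G_eq t m (by omega) hmt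
  have hA0 := A_nonneg m
  have hB0 := B_nonneg m
  have e1 : T b (G (t + 1)) m ≤ 1 + m / τ + ((1 / 2 + b) * A m - (1 / 2 - b) * B m) / τ := by
    rw [T_eq, g1, g2]
    have h1 : (1 / 2 - b) * B m * (G (t + 1) (m - 1) - (1 + (m : ℝ) / τ)) ≤
        (1 / 2 - b) * B m * (-(1 / τ)) := by
      apply mul_le_mul_of_nonneg_left _ (mul_nonneg (by linarith) hB0)
      have : ((m : ℝ) - 1) / τ = m / τ - 1 / τ := by ring
      linarith
    have h2 : (1 + ((m : ℝ) + 1) / τ - (1 + (m : ℝ) / τ)) = 1 / τ := by ring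
    rw [h2]
    have h3 : ((1 / 2 + b) * A m - (1 / 2 - b) * B m) / τ =
        (1 / 2 + b) * A m * (1 / τ) + (1 / 2 - b) * B m * (-(1 / τ)) := by ring
    rw [h3]
    linarith
  have e2 : (1 / 2 + b) * A m - (1 / 2 - b) * B m ≤
      -(1 / (2 * ((m : ℝ) + 3))) + 4 / (5 * τ) * (1 + 1 / (m : ℝ)) := by
    have h1 : (1 / 2 + b) * A m - (1 / 2 - b) * B m = -((B m - A m) / 2) + b * (A m + B m) := by
      ring
    have h2 : b * (A m + B m) ≤ 4 / (5 * τ) * (1 + 1 / (m : ℝ)) :=
      mul_le_mul hb hAB2 (by linarith) (by positivity)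
    have h3 : 1 / (2 * ((m : ℝ) + 3)) = 1 / ((m : ℝ) + 3) / 2 := by
      rw [div_div]
      ring
    rw [h1, h3]
    linarith
  have e3 : 1 / (2 * τ ^ 3) ≤ 1 / σ - 1 / τ := by
    have h1 : 1 / σ - 1 / τ = 1 / (σ * τ * (σ + τ)) := by
      field_simp
      linarith
    rw [h1]
    apply one_div_le_one_div_of_le (by positivity)
    have h2 : σ * τ ≤ τ * τ := mul_le_mul_of_nonneg_right hσl hτ0
    have h3 : σ * τ * (σ + τ) ≤ τ * τ * (τ + τ) :=
      mul_le_mul h2 (by linarith) (by positivity) (by positivity)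
    calc σ * τ * (σ + τ) ≤ τ * τ * (τ + τ) := h3
      _ = 2 * τ ^ 3 := by ring
  have hc : (m : ℝ) ≤ 15 ∨ (16 : ℝ) ≤ m := by
    rcases Nat.lt_or_ge m 16 with h | h
    · left
      have : m ≤ 15 := by omega
      exact_mod_cast this
    · right
      exact_mod_cast h
  have e4 := ineq_core hm' hτ64 hc
  have e5 : (m : ℝ) / (2 * τ ^ 3) ≤ m * (1 / σ - 1 / τ) := by
    have : (m : ℝ) / (2 * τ ^ 3) = m * (1 / (2 * τ ^ 3)) := by ring
    rw [this]
    exact mul_le_mul_of_nonneg_left e3 (by linarith)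
  have e6 : 1 / (40 * ((t : ℝ) + 1)) * (1 + m / σ) ≤
      (1 / (40 * τ) + m / (20 * τ ^ 2)) / τ := by
    rw [← hτ2]
    have h1 : (m : ℝ) / σ ≤ m / (τ / 2) :=
      div_le_div_of_nonneg_left (by linarith) (by positivity) hσh
    have h2 : 1 / (40 * τ ^ 2) * (1 + m / σ) ≤ 1 / (40 * τ ^ 2) * (1 + m / (τ / 2)) :=
      mul_le_mul_of_nonneg_left (by linarith) (by positivity)
    refine h2.trans (le_of_eq ?_)
    field_simp
    ring
  have e7 : (1 / (40 * τ) + m / (20 * τ ^ 2)) / τ ≤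
      ((m : ℝ) / (2 * τ ^ 2) + 1 / (2 * ((m : ℝ) + 3)) - 4 / (5 * τ) * (1 + 1 / (m : ℝ))) / τ :=
    div_le_div_of_nonneg_right e4 hτ0
  have e8 : ((1 / 2 + b) * A m - (1 / 2 - b) * B m) / τ ≤
      (-(1 / (2 * ((m : ℝ) + 3))) + 4 / (5 * τ) * (1 + 1 / (m : ℝ))) / τ :=
    div_le_div_of_nonneg_right e2 hτ0
  have e9 : ((m : ℝ) / (2 * τ ^ 2) + 1 / (2 * ((m : ℝ) + 3)) -
      4 / (5 * τ) * (1 + 1 / (m : ℝ))) / τ = (m : ℝ) / (2 * τ ^ 3) -
      (-(1 / (2 * ((m : ℝ) + 3))) + 4 / (5 * τ) * (1 + 1 / (m : ℝ))) / τ := by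
    generalize 4 / (5 * τ) * (1 + 1 / (m : ℝ)) = u
    generalize 1 / (2 * ((m : ℝ) + 3)) = w
    field_simp
    ring
  rw [g4]
  have e10 : (m : ℝ) * (1 / σ - 1 / τ) = m / σ - m / τ := by ring
  have e11 : (1 - 1 / (40 * ((t : ℝ) + 1))) * (1 + (m : ℝ) / σ) =
      1 + (m : ℝ) / σ - 1 / (40 * ((t : ℝ) + 1)) * (1 + m / σ) := by ring
  rw [e11]
  linarith

theorem main : StmZero := by
  intro a ha ha5
  -- for every late time, the walk returns to 0
  have key : ∀ T₀ : ℕ, 4096 ≤ T₀ →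
      noise {ω | ∀ r, 0 < idx (walk a ω (T₀ + r))} = 0 := by
    intro T₀ hT₀
    have hind : ∀ (U : Set (ℕ → ℝ × ℝ)) ω, |U.indicator (fun _ => (1 : ℝ)) ω| ≤ 1 := by
      intro U ω
      by_cases h : ω ∈ U
      · rw [Set.indicator_of_mem h]; simp
      · rw [Set.indicator_of_notMem h]; simp
    have hmi : ∀ {U : Set (ℕ → ℝ × ℝ)}, MeasurableSet U →
        Measurable (U.indicator (fun _ => (1 : ℝ))) := fun hU => measurable_const.indicator hU
    have hK : ∀ n, MeasurableSet (Kp a Set.univ T₀ 0 n) := fun n =>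
      Kp_measurable a MeasurableSet.univ T₀ 0 n
    set J : ℕ → ℝ := fun n => ∫ ω, (Kp a Set.univ T₀ 0 n).indicator (fun _ => (1 : ℝ)) ω *
      G (T₀ + n) (idx (walk a ω (T₀ + n))) ∂noise with hJ
    have hGabs : ∀ t m, |G t m| ≤ 1 + t / √(t : ℝ) := fun t m => by
      rw [abs_of_nonneg (G_nonneg t m)]
      exact G_le t m
    have hJint : ∀ n t, Integrable (fun ω => (Kp a Set.univ T₀ 0 n).indicator (fun _ => (1 : ℝ)) ω *
      G t (idx (walk a ω (T₀ + n)))) noise := fun n t =>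
      integrable_past a (T₀ + n) _ (hmi (hK n)) 1 (hind _) (G t) _ (hGabs t)
    have hJstep : ∀ n, J (n + 1) ≤ (1 - 1 / (40 * ((T₀ + n : ℕ) + 1 : ℝ))) * J n := by
      intro n
      have h1 := killed_step a ha (S := Set.univ) MeasurableSet.univ T₀ 0 (by simp)
        (G (T₀ + n + 1)) _ (G_nonneg _) (G_le _) n
      refine h1.trans ?_
      rw [hJ]
      simp only
      rw [← integral_const_mul]
      have hb := bias_mem (ha (T₀ + n + 1) (by omega))
      apply integral_mono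
      · apply integrable_past a (T₀ + n) _ (hmi (hK n)) 1 (hind _)
          (T (4 / a (T₀ + n + 1)) (G (T₀ + n + 1))) (1 + ((T₀ + n + 1 : ℕ) : ℝ) /
            √((T₀ + n + 1 : ℕ) : ℝ))
        intro m
        have := T_nonneg_bound hb.1 hb.2 (G_nonneg (T₀ + n + 1)) (G_le (T₀ + n + 1)) m
        rw [abs_of_nonneg this.1]
        exact this.2
      · exact (hJint n (T₀ + n)).const_mul _
      · intro ω
        simp only
        by_cases h2 : ω ∈ Kp a Set.univ T₀ 0 n
        · rw [ind1 h2, one_mul, one_mul]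
          have h3 : 0 < idx (walk a ω (T₀ + n)) := h2.2 n le_rfl
          apply claim (T₀ + n) _ _ (by omega) h3 (idx_le a ω _) hb.1 hb.2
          have h4 := ha5 (T₀ + n + 1) (by omega)
          have h5 : 0 < √((T₀ + n + 1 : ℕ) : ℝ) := Real.sqrt_pos.2 (by positivity)
          exact div_le_div_of_nonneg_left (by norm_num) (by positivity) h4
        · rw [ind0 h2]
          simp
    have hJ0 : ∀ n, 0 ≤ J n := by
      intro n
      apply integral_nonneg
      intro ω
      exact mul_nonneg (Set.indicator_nonneg (fun _ _ => by norm_num) _) (G_nonneg _ _)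
    have hJb : ∀ n, J n ≤ J 0 * Real.exp (-(1 / 40) *
        ∑ j ∈ Finset.range n, 1 / ((T₀ + j : ℕ) + 1 : ℝ)) := by
      intro n
      induction n with
      | zero => simp
      | succ n ih =>
        rw [Finset.sum_range_succ, mul_add, Real.exp_add, ← mul_assoc]
        refine (hJstep n).trans ?_
        have h1 : 1 - 1 / (40 * ((T₀ + n : ℕ) + 1 : ℝ)) ≤
            Real.exp (-(1 / 40) * (1 / ((T₀ + n : ℕ) + 1 : ℝ))) := by
          have h2 := Real.add_one_le_exp (-(1 / 40) * (1 / ((T₀ + n : ℕ) + 1 : ℝ)))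
          refine le_trans (le_of_eq ?_) h2
          field_simp
          ring
        calc (1 - 1 / (40 * ((T₀ + n : ℕ) + 1 : ℝ))) * J n ≤
              Real.exp (-(1 / 40) * (1 / ((T₀ + n : ℕ) + 1 : ℝ))) * J n :=
              mul_le_mul_of_nonneg_right h1 (hJ0 n)
          _ ≤ Real.exp (-(1 / 40) * (1 / ((T₀ + n : ℕ) + 1 : ℝ))) * (J 0 * Real.exp (-(1 / 40) *
                ∑ j ∈ Finset.range n, 1 / ((T₀ + j : ℕ) + 1 : ℝ))) :=
              mul_le_mul_of_nonneg_left ih (Real.exp_pos _).le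
          _ = _ := by ring
    -- the harmonic series
    have hH : Tendsto (fun n => ∑ j ∈ Finset.range n, 1 / ((T₀ + j : ℕ) + 1 : ℝ)) atTop atTop := by
      have h1 := Real.tendsto_sum_range_one_div_nat_succ_atTop
      have h2 : (fun n => ∑ j ∈ Finset.range n, 1 / ((T₀ + j : ℕ) + 1 : ℝ)) = fun n =>
          -(∑ j ∈ Finset.range T₀, 1 / ((j : ℝ) + 1)) +
            ∑ j ∈ Finset.range (T₀ + n), 1 / ((j : ℝ) + 1) := by
        funext n
        rw [Finset.sum_range_add]
        ring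
      rw [h2]
      apply tendsto_atTop_add_const_left
      have h3 : Tendsto (fun n : ℕ => T₀ + n) atTop atTop :=
        tendsto_atTop_mono (fun n => Nat.le_add_left n T₀) tendsto_id
      exact h1.comp h3
    have hlim : Tendsto (fun n => J 0 * Real.exp (-(1 / 40) *
        ∑ j ∈ Finset.range n, 1 / ((T₀ + j : ℕ) + 1 : ℝ))) atTop (𝓝 0) := by
      have h1 : Tendsto (fun n => -(1 / 40 : ℝ) *
          ∑ j ∈ Finset.range n, 1 / ((T₀ + j : ℕ) + 1 : ℝ)) atTop atBot :=
        hH.const_mul_atTop_of_neg (by norm_num)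
      have h2 := (Real.tendsto_exp_atBot.comp h1).const_mul (J 0)
      rw [mul_zero] at h2
      exact h2
    have hle : ∀ n, noise.real {ω | ∀ r, 0 < idx (walk a ω (T₀ + r))} ≤ J n := by
      intro n
      have h1 : noise.real {ω | ∀ r, 0 < idx (walk a ω (T₀ + r))} ≤
          noise.real (Kp a Set.univ T₀ 0 n) := by
        refine measureReal_mono ?_ (measure_ne_top _ _)
        intro ω hω
        exact ⟨trivial, fun r _ => hω r⟩
      refine h1.trans ?_
      have h2 : noise.real (Kp a Set.univ T₀ 0 n) =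
          ∫ ω, (Kp a Set.univ T₀ 0 n).indicator (fun _ => (1 : ℝ)) ω ∂noise :=
        (integral_indicator_one (hK n)).symm
      rw [h2]
      apply integral_mono
      · have h3 := integrable_past a (T₀ + n) _ (hmi (hK n)) 1 (hind _) (fun _ => (1 : ℝ)) 1
          (fun _ => by simp)
        simpa using h3
      · exact hJint n (T₀ + n)
      · intro ω
        simp only
        by_cases h2 : ω ∈ Kp a Set.univ T₀ 0 n
        · rw [ind1 h2, one_mul]
          exact G_ge _ _ (h2.2 n le_rfl)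
        · rw [ind0 h2]
          simp
    have hz : noise.real {ω | ∀ r, 0 < idx (walk a ω (T₀ + r))} ≤ 0 :=
      ge_of_tendsto hlim (Eventually.of_forall fun n => (hle n).trans (hJb n))
    have hz2 : noise.real {ω | ∀ r, 0 < idx (walk a ω (T₀ + r))} = 0 :=
      le_antisymm hz measureReal_nonneg
    exact (measureReal_eq_zero_iff (measure_ne_top _ _)).1 hz2
  have hae : ∀ᵐ ω ∂noise, ¬ Tendsto (fun t => (walk a ω t).2) atTop atTop := by
    have h1 : ∀ k : ℕ, ∀ᵐ ω ∂noise, ¬ ∀ r, 0 < idx (walk a ω (4096 + k + r)) := by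
      intro k
      rw [ae_iff]
      simp only [not_not]
      exact key (4096 + k) (by omega)
    filter_upwards [ae_all_iff.2 h1, noise_nonneg] with ω h2 h3 h4
    have h5 := idx_of_divergence a ω h3 h4
    obtain ⟨T₁, hT₁⟩ := eventually_atTop.1 ((tendsto_atTop.1 h5) 1)
    apply h2 T₁
    intro r
    have := hT₁ (4096 + T₁ + r) (by omega)
    omega
  rw [ae_iff] at hae
  simpa only [not_not] using hae

end Pool.Agent.Y562.ST
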